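import Pool.Agent.H21.L.R_seed8.W187.UR.Stm

/-! The logarithm below the real segment. -/

set_option autoImplicit false

namespace Pool.Agent.W187.UR

open Complex MeasureTheory Filter Topology Set
open Pool.Agent.W189.ML Pool.Agent.W189.LC

theorem norm_log_le' (z : ℂ) : ‖log z‖ ≤ |Real.log ‖z‖| + Real.pi := by
  have h1 := Complex.norm_le_abs_re_add_abs_im (log z)
  rw [Complex.log_re, Complex.log_im] at h1
  have h2 := Complex.abs_arg_le_pi z
  linarith

/-- the constant for one zero -/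
noncomputable def Cx (x : ℝ) : ℝ := (9 + |Real.log x|) * (2 / x) + 4 / x ^ 2 + 2 / x

theorem Cx_nonneg {x : ℝ} (hx : 0 < x) : 0 ≤ Cx x := by
  unfold Cx
  positivity

theorem one_zero {x : ℝ} (hx : 0 < x) (hx1 : x ≤ 1) {w : ℂ} (h1 : 0 < w.re) (h2 : w.re ≤ 2)
    (h3 : -1 ≤ w.im) (h4 : w.im < 0) :
    ‖log (w - x) - (Real.log x - Real.pi * I)‖ ≤
      Cx x * (‖w‖ * (1 + ‖w‖ * |Real.log (-w.im)|)) := by
  have hpi := Real.pi_pos
  have hw0 : 0 ≤ ‖w‖ := norm_nonneg _
  set t := -w.im with ht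
  have ht0 : 0 < t := by linarith
  have ht1 : t ≤ 1 := by linarith
  have hlt : 0 ≤ |Real.log t| := abs_nonneg _
  by_cases hc : ‖w‖ ≤ x / 2
  · -- close to zero
    have hxw : (x : ℂ) - w ≠ 0 := by
      intro h
      have := congrArg Complex.im h
      simp at this
      linarith
    have him : 0 < ((x : ℂ) - w).im := by simp; linarith
    have e1 : log (w - x) = log (x - w) - Real.pi * I := by
      have e2 : exp (log (x - w) - Real.pi * I) = w - x := by
        rw [Complex.exp_sub, Complex.exp_log hxw, Complex.exp_pi_mul_I]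
        ring
      rw [← e2, Complex.log_exp]
      · have h5 : (log ((x : ℂ) - w) - Real.pi * I).im = arg (x - w) - Real.pi := by
          simp [Complex.log_im]
        rw [h5]
        have h6 : arg ((x : ℂ) - w) ≠ 0 := by
          intro h
          rw [Complex.arg_eq_zero_iff] at h
          linarith [h.2]
        have h7 : 0 ≤ arg ((x : ℂ) - w) := Complex.arg_nonneg_iff.2 him.le
        have h8 : 0 < arg ((x : ℂ) - w) := lt_of_le_of_ne h7 (Ne.symm h6)
        linarith
      · have h5 : (log ((x : ℂ) - w) - Real.pi * I).im = arg (x - w) - Real.pi := by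
          simp [Complex.log_im]
        rw [h5]
        have := Complex.arg_le_pi ((x : ℂ) - w)
        linarith
    have hxc : (x : ℂ) ≠ 0 := by exact_mod_cast hx.ne'
    have e3 : (x : ℂ) - w = (x : ℂ) * (1 + (-(w / x))) := by
      field_simp
      ring
    have e4 : (1 : ℂ) + (-(w / x)) ≠ 0 := by
      intro h
      rw [h, mul_zero] at e3
      exact hxw e3
    have e5 : log (x - w) = Real.log x + log (1 + (-(w / x))) := by
      rw [e3, Complex.log_ofReal_mul hx e4]
    have e6 : ‖-(w / (x : ℂ))‖ = ‖w‖ / x := by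
      rw [norm_neg, norm_div, Complex.norm_real, Real.norm_eq_abs, abs_of_pos hx]
    have e7 := Complex.norm_log_one_add_half_le_self (z := -(w / (x : ℂ))) (by
      rw [e6, div_le_iff₀ hx]; linarith)
    rw [e6] at e7
    have e8 : log (w - x) - (Real.log x - Real.pi * I) = log (1 + (-(w / x))) := by
      rw [e1, e5]; ring
    rw [e8]
    refine e7.trans ?_
    have h9 : 2 / x ≤ Cx x := by
      unfold Cx
      have : 0 ≤ (9 + |Real.log x|) * (2 / x) + 4 / x ^ 2 := by positivity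
      linarith
    calc 3 / 2 * (‖w‖ / x) ≤ 2 * (‖w‖ / x) := by
          have : 0 ≤ ‖w‖ / x := by positivity
          linarith
      _ = 2 / x * (‖w‖ * 1) := by ring
      _ ≤ Cx x * (‖w‖ * (1 + ‖w‖ * |Real.log t|)) := by
          have : (1 : ℝ) ≤ 1 + ‖w‖ * |Real.log t| := by
            have := mul_nonneg hw0 hlt
            linarith
          have := Cx_nonneg hx
          gcongr
  · push Not at hc
    have h5 : ‖w‖ ≤ 4 := by
      have := Complex.norm_le_abs_re_add_abs_im w
      rw [abs_of_pos h1, abs_of_neg h4] at this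
      linarith
    have h6 : t ≤ ‖w - (x : ℂ)‖ := by
      have := Complex.abs_im_le_norm (w - (x : ℂ))
      rw [Complex.sub_im, Complex.ofReal_im, sub_zero, abs_of_neg h4] at this
      exact this
    have h7 : ‖w - (x : ℂ)‖ ≤ 5 := by
      have := norm_sub_le w (x : ℂ)
      rw [Complex.norm_real, Real.norm_eq_abs, abs_of_pos hx] at this
      linarith
    have h8 : |Real.log ‖w - (x : ℂ)‖| ≤ |Real.log t| + 2 := by
      have e1 := Real.log_le_log ht0 h6
      have e2 := Real.log_le_log (ht0.trans_le h6) h7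
      have e3 : Real.log 5 ≤ 2 := by
        rw [Real.log_le_iff_le_exp (by norm_num)]
        have := Real.quadratic_le_exp_of_nonneg (x := 2) (by norm_num)
        linarith
      rw [abs_le]
      have e4 := neg_abs_le (Real.log t)
      constructor <;> linarith
    have h9 := norm_log_le' (w - (x : ℂ))
    have h10 : ‖((Real.log x : ℝ) : ℂ) - Real.pi * I‖ ≤ |Real.log x| + Real.pi := by
      refine (norm_sub_le _ _).trans ?_
      rw [norm_mul, Complex.norm_I, mul_one, Complex.norm_real, Complex.norm_real,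
        Real.norm_eq_abs, Real.norm_eq_abs, abs_of_pos hpi]
    have hpi4 : Real.pi < 3.15 := Real.pi_lt_d2
    have h11 : ‖log (w - x) - (Real.log x - Real.pi * I)‖ ≤
        (9 + |Real.log x|) + |Real.log t| := by
      refine (norm_sub_le _ _).trans ?_
      norm_num at hpi4
      linarith
    refine h11.trans ?_
    have h12 : 1 ≤ 2 / x * ‖w‖ := by
      rw [div_mul_eq_mul_div, le_div_iff₀ hx]
      linarith
    have h13 : 9 + |Real.log x| ≤ (9 + |Real.log x|) * (2 / x) * ‖w‖ := by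
      rw [mul_assoc]
      exact le_mul_of_one_le_right (by positivity) h12
    have h14 : |Real.log t| ≤ 4 / x ^ 2 * (‖w‖ * (‖w‖ * |Real.log t|)) := by
      have h15 : 1 ≤ (2 / x * ‖w‖) * (2 / x * ‖w‖) := by nlinarith
      calc |Real.log t| ≤ ((2 / x * ‖w‖) * (2 / x * ‖w‖)) * |Real.log t| :=
            le_mul_of_one_le_left hlt h15
        _ = _ := by ring
    have hA : 0 ≤ (9 + |Real.log x|) * (2 / x) := by positivity
    have hB : 0 ≤ 4 / x ^ 2 := by positivity
    have hC : 0 ≤ 2 / x := by positivity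
    have hw2 : 0 ≤ ‖w‖ * (‖w‖ * |Real.log t|) := by positivity
    unfold Cx
    calc (9 + |Real.log x|) + |Real.log t| ≤ (9 + |Real.log x|) * (2 / x) * ‖w‖ +
          4 / x ^ 2 * (‖w‖ * (‖w‖ * |Real.log t|)) := add_le_add h13 h14
      _ ≤ ((9 + |Real.log x|) * (2 / x) + 4 / x ^ 2 + 2 / x) *
          (‖w‖ * (1 + ‖w‖ * |Real.log t|)) := by
          have e1 : ((9 + |Real.log x|) * (2 / x) + 4 / x ^ 2 + 2 / x) *
            (‖w‖ * (1 + ‖w‖ * |Real.log t|)) = (9 + |Real.log x|) * (2 / x) * ‖w‖ +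
            4 / x ^ 2 * (‖w‖ * (‖w‖ * |Real.log t|)) +
            ((9 + |Real.log x|) * (2 / x) * (‖w‖ * (‖w‖ * |Real.log t|)) + 4 / x ^ 2 * ‖w‖ +
            2 / x * ‖w‖ + 2 / x * (‖w‖ * (‖w‖ * |Real.log t|))) := by ring
          rw [e1]
          have : 0 ≤ (9 + |Real.log x|) * (2 / x) * (‖w‖ * (‖w‖ * |Real.log t|)) +
            4 / x ^ 2 * ‖w‖ + 2 / x * ‖w‖ + 2 / x * (‖w‖ * (‖w‖ * |Real.log t|)) := by positivity
          linarith

theorem bel (h : S_FAC) : S_BEL := by
  intro Φ g h1 h2 h3 h4 h5 m hm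
  obtain ⟨Z, n, Q, hZ, hQa, hQr, hQ2, htr⟩ := h Φ g h1 h2 h3 h4 h5 m hm
  have hQs : ∀ x ∈ Icc (0 : ℝ) 2, Q (x : ℂ) ∈ slitPlane := fun x hx => Or.inl (hQr x hx).2
  obtain ⟨δ₁, hδ₁, M, hM0, hM⟩ := rect hQa hQs
  -- the branch near `2`
  have h22 : (2 : ℝ) ∈ Icc (0 : ℝ) 2 := ⟨by norm_num, le_rfl⟩
  have hQa2 : AnalyticAt ℂ Q 2 := by simpa using hQa 2 h22
  have hQr2 : (Q 2).im = 0 ∧ 0 < (Q 2).re := by simpa using hQr 2 h22
  have hg2 : AnalyticAt ℂ g 2 := h3 2 (by norm_num)
  have hg2i : (g 2).im = 0 := by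
    have := h5 2 (by norm_num)
    simpa using this
  have hne2 : ∀ x ∈ Z, (2 : ℂ) - (x : ℂ) ∈ slitPlane := by
    intro x hx
    left
    have := (hZ x hx).2
    simp
    linarith
  have hs2 : (2 : ℂ) ∈ slitPlane := by left; simp
  set L₀ : ℂ → ℂ := fun w => g w - m * log w - ∑ x ∈ Z, (n x : ℂ) * log (w - x) with hL₀
  have hL₀c : ContinuousAt L₀ 2 := by
    refine ContinuousAt.sub (hg2.continuousAt.sub ?_) ?_
    · exact continuousAt_const.mul (ContinuousAt.clog continuousAt_id hs2)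
    · refine tendsto_finsetSum _ fun x hx => ?_
      exact continuousAt_const.mul (ContinuousAt.clog (by fun_prop) (hne2 x hx))
  have hL₀i : (L₀ 2).im = 0 := by
    rw [hL₀]
    simp only [Complex.sub_im, hg2i, Complex.im_sum]
    have e1 : ((m : ℂ) * log 2).im = 0 := by
      have : (2 : ℂ) = ((2 : ℝ) : ℂ) := by push_cast; rfl
      rw [this, ← Complex.ofReal_log (by norm_num), ← Complex.ofReal_intCast, ← Complex.ofReal_mul,
        Complex.ofReal_im]
    have e2 : ∀ x ∈ Z, ((n x : ℂ) * log (2 - (x : ℂ))).im = 0 := by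
      intro x hx
      have h6 : (2 : ℂ) - (x : ℂ) = ((2 - x : ℝ) : ℂ) := by push_cast; rfl
      rw [h6, ← Complex.ofReal_log (by linarith [(hZ x hx).2]), ← Complex.ofReal_intCast,
        ← Complex.ofReal_mul, Complex.ofReal_im]
    rw [e1, Finset.sum_eq_zero e2]
    simp
  obtain ⟨δ₂, hδ₂, hbr⟩ := branch (L := L₀) (Q := Q) (m := 0) hL₀c hL₀i hQa2
    (Or.inl hQr2.2) (by
      exact (log_im hQr2).1) (by
      have e1 : ∀ᶠ w in 𝓝 (2 : ℂ), w ∈ slitPlane := isOpen_slitPlane.mem_nhds hs2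
      have e2 : ∀ᶠ w in 𝓝 (2 : ℂ), ∀ x ∈ Z, w - (x : ℂ) ∈ slitPlane := by
        rw [Filter.eventually_all_finset]
        intro x hx
        have : ContinuousAt (fun w : ℂ => w - (x : ℂ)) 2 := by fun_prop
        exact this.eventually (isOpen_slitPlane.mem_nhds (hne2 x hx))
      filter_upwards [hQ2, e1, e2] with w h6 h7 h8
      have h9 : w ≠ 0 := slitPlane_ne_zero h7
      have h10 : ∀ x ∈ Z, w - (x : ℂ) ≠ 0 := fun x hx => slitPlane_ne_zero (h8 x hx)
      rw [hL₀]
      simp only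
      rw [Complex.exp_sub, Complex.exp_sub, h6, Complex.exp_int_mul, Complex.exp_log h9,
        Complex.exp_sum]
      have h11 : ∏ x ∈ Z, exp ((n x : ℂ) * log (w - x)) = ∏ x ∈ Z, (w - (x : ℂ)) ^ (n x) :=
        Finset.prod_congr rfl fun x hx => by
          rw [Complex.exp_int_mul, Complex.exp_log (h10 x hx)]
      rw [h11]
      have h12 : ∏ x ∈ Z, (w - (x : ℂ)) ^ (n x) ≠ 0 :=
        Finset.prod_ne_zero_iff.2 fun x hx => zpow_ne_zero _ (h10 x hx)
      have h13 : w ^ m ≠ 0 := zpow_ne_zero _ h9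
      rw [zpow_zero, one_mul]
      field_simp)
  set η : ℝ := min (min δ₁ (δ₂ / 2)) 1 with hη
  have hη0 : 0 < η := lt_min (lt_min hδ₁ (by positivity)) one_pos
  set L : ℂ → ℂ := fun w => m * log w + (∑ x ∈ Z, (n x : ℂ) * log (w - x)) + log (Q w) with hL
  set r₀ : ℂ := (∑ x ∈ Z, (n x : ℂ) * (Real.log x - Real.pi * I)) + log (Q 0) with hr₀
  have hQ00 : (Q 0).im = 0 ∧ 0 < (Q 0).re := by
    have := hQr 0 ⟨le_rfl, by norm_num⟩
    simpa using this
  refine ⟨η, (∑ x ∈ Z, |(n x : ℝ)| * Cx x) + M, L, r₀, ⟨hη0, ?_, ?_, ?_⟩, ?_, ?_⟩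
  · have : 0 ≤ ∑ x ∈ Z, |(n x : ℝ)| * Cx x :=
      Finset.sum_nonneg fun x hx => mul_nonneg (abs_nonneg _) (Cx_nonneg (hZ x hx).1)
    linarith
  · intro w h6 h7 h8 h9
    have h10 : |w.im| ≤ δ₁ := by
      rw [abs_of_neg h9]
      have := (min_le_left (min δ₁ (δ₂ / 2)) 1).trans (min_le_left _ _)
      linarith
    have h11 := (hM w h6.le h7 h10).2
    rw [hL]
    refine DifferentiableAt.add (DifferentiableAt.add ?_ ?_) h11
    · exact (DifferentiableAt.clog differentiableAt_id (Or.inl h6)).const_mul _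
    · refine DifferentiableAt.fun_sum fun x hx => ?_
      refine (DifferentiableAt.clog (by fun_prop) (Or.inr ?_)).const_mul _
      simp
      exact h9.ne
  · intro w h6 h7 h8 h9
    have h10 : |w.im| ≤ δ₁ := by
      rw [abs_of_neg h9]
      have := (min_le_left (min δ₁ (δ₂ / 2)) 1).trans (min_le_left _ _)
      linarith
    have h8' : -1 ≤ w.im := by
      have := min_le_right (min δ₁ (δ₂ / 2)) 1
      linarith
    have h11 := (hM w h6.le h7 h10).1
    have h12 : L w - m * log w - r₀ = (∑ x ∈ Z, (n x : ℂ) *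
        (log (w - x) - (Real.log x - Real.pi * I))) + (log (Q w) - log (Q 0)) := by
      rw [hL, hr₀]
      simp only [mul_sub, Finset.sum_sub_distrib]
      ring
    rw [h12]
    set X := ‖w‖ * (1 + ‖w‖ * |Real.log (-w.im)|) with hX
    have hX1 : ‖w‖ ≤ X := by
      have : 0 ≤ ‖w‖ * (‖w‖ * |Real.log (-w.im)|) := by positivity
      rw [hX]; nlinarith
    have h13 : ‖∑ x ∈ Z, (n x : ℂ) * (log (w - x) - (Real.log x - Real.pi * I))‖ ≤
        ∑ x ∈ Z, |(n x : ℝ)| * Cx x * X := by
      refine norm_sum_le_of_le _ fun x hx => ?_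
      rw [norm_mul, Complex.norm_intCast, mul_assoc]
      exact mul_le_mul_of_nonneg_left (one_zero (hZ x hx).1 (hZ x hx).2 h6 h7 h8' h9)
        (abs_nonneg _)
    rw [← Finset.sum_mul] at h13
    calc ‖_ + (log (Q w) - log (Q 0))‖ ≤ (∑ x ∈ Z, |(n x : ℝ)| * Cx x) * X + M * ‖w‖ :=
          (norm_add_le _ _).trans (add_le_add h13 h11)
      _ ≤ (∑ x ∈ Z, |(n x : ℝ)| * Cx x) * X + M * X := by gcongr
      _ = _ := by rw [hX]; ring
  · intro w h6 h7 h8
    have h9 : dist w 2 < δ₂ := by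
      rw [Complex.dist_eq]
      have e1 : w - 2 = ((w.im : ℝ) : ℂ) * I := by
        apply Complex.ext <;> simp [h6]
      rw [e1, norm_mul, Complex.norm_I, mul_one, Complex.norm_real, Real.norm_eq_abs,
        abs_of_neg h8]
      have := (min_le_left (min δ₁ (δ₂ / 2)) 1).trans (min_le_right _ _)
      linarith
    have h10 := hbr w h9
    rw [hL₀] at h10
    simp only [Int.cast_zero, zero_mul, zero_add] at h10
    rw [hL]
    simp only
    linear_combination h10
  · rw [htr, hr₀, (log_im hQ00).2]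
    rw [Complex.add_re, Complex.ofReal_re, Complex.re_sum]
    congr 1
    refine Finset.sum_congr rfl fun x hx => ?_
    have : ((n x : ℂ) * (Real.log x - Real.pi * I)).re = n x * Real.log x := by
      simp
    rw [this]

end Pool.Agent.W187.UR
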