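import Pool.Agent.H21.L.R_seed8.W338.UR.Ref

/-! The refined asymptotics in complex form. -/

set_option autoImplicit false

namespace Pool.Agent.W187.UR

open Complex MeasureTheory Filter Topology Set
open scoped Interval
open Pool.Agent.W189.ML Pool.Agent.W189.LC Pool.Agent.W338.UR

/-- the refined asymptotics of the rotated means, complex form -/
def S_REFC : Prop := ∀ {ι : Type} [Countable ι] (lam c : ι → ℝ), SData lam c (fun _ => 0) →
  ∀ γ : ℝ, Real.pi / 2 < γ → ∀ (m : ℤ) (r₀ : ℂ) (L : ℂ → ℂ) (η B : ℝ), Bel m r₀ η B L →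
  (∀ w : ℂ, w.re = 2 → -η ≤ w.im → w.im < 0 → -ser lam c w = L w) →
  ∃ C T₀ : ℝ, 0 ≤ C ∧ 1 ≤ T₀ ∧ ∀ T ≥ T₀,
    ‖cmean lam c γ T - (m * Real.log T - m * J 1 (fun z => log (z - γ * I)) - r₀)‖ ≤ C / T

/-- The proof is the one of helper338 (`Pool.Agent.W338.UR.Ref`). -/
theorem refc : S_REFC := by
  intro ι _ lam c D γ hγ m r₀ L η B H hL2
  obtain ⟨hθ1, hθ2, hθ3, hκ0⟩ := th_facts hγ
  have hpi := Real.pi_pos
  have hγ0 : 0 < γ := by linarith
  have hη := H.hη
  obtain ⟨C1, hC1, hleft⟩ := left hγ H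
  obtain ⟨Q, hQ, hright⟩ := right D hγ0 m r₀
  set θ : ℝ := th γ with hθ
  set κ : ℝ := -Real.cos θ with hκ
  have hq : 0 < (Real.pi + γ) / η := by positivity
  refine ⟨C1 + Q * (2 / κ ^ 2) + Q, (Real.pi + γ) / η + (1 + γ) + 1, by positivity,
    by linarith, fun T hT => ?_⟩
  have hT1 : 1 ≤ T := by linarith
  have hT0 : 0 < T := by linarith
  obtain ⟨admF, hJ, hF⟩ := hright T hT1
  set b : ℝ := 2 * T with hb
  have hb0 : 0 ≤ b := by linarith
  have hexpb : Real.exp (-b) ≤ 1 / T := by
    rw [Real.exp_neg, le_div_iff₀ hT0, inv_mul_le_iff₀ (Real.exp_pos _), mul_one]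
    have := Real.add_one_le_exp b
    linarith
  -- the rays
  have E1 : ‖∫ x in Ioi b, rho (FF lam c γ m r₀ T) x‖ ≤ Q / T := by
    have := norm_rays_le' (Φ := FF lam c γ m r₀ T) (A := 0) (B := Q) hb0 le_rfl hQ
      (s := Ioi b)
      (fun x hx => by have := hF _ (up_mem (le_of_lt hx)); simpa using this)
      (fun x hx => by have := hF _ (down_mem (le_of_lt hx)); simpa using this)
      subset_rfl measurableSet_Ioi
    refine this.trans ?_
    rw [zero_add, div_eq_mul_one_div]
    exact mul_le_mul_of_nonneg_left hexpb hQ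
  -- the upper part
  have E2 : ‖∫ y in θ..Real.pi, K (b + y * I) * FF lam c γ m r₀ T (b + y * I)‖ ≤
      Q * (2 / κ ^ 2) / T * |Real.pi - θ| := by
    refine intervalIntegral.norm_integral_le_of_norm_le_const fun y hy => ?_
    rw [uIoc_of_le hθ3] at hy
    rw [norm_mul]
    have h1 : ‖K (b + y * I)‖ ≤ Real.exp (-(κ * Real.exp b)) := by
      refine norm_K_neg ?_
      rw [hκ, neg_neg]
      exact Real.cos_le_cos_of_nonneg_of_le_pi (by linarith) hy.2 hy.1.le
    have h2 := hF (b + y * I) (vert_mem (by linarith [hy.1]) hy.2)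
    have h3 : ((b : ℂ) + y * I).re = b := by simp
    rw [h3] at h2
    calc ‖K (b + y * I)‖ * ‖FF lam c γ m r₀ T (b + y * I)‖
        ≤ Real.exp (-(κ * Real.exp b)) * (Q * b) :=
          mul_le_mul h1 h2 (norm_nonneg _) (Real.exp_pos _).le
      _ = Q * (Real.exp (-(κ * Real.exp b)) * b) := by ring
      _ ≤ Q * (2 / κ ^ 2 * Real.exp (-b)) := mul_le_mul_of_nonneg_left (dexp_le hκ0 hb0) hQ
      _ ≤ Q * (2 / κ ^ 2 * (1 / T)) := by gcongr
      _ = _ := by ring
  -- the lower part
  have E3 : ‖∫ y in (-Real.pi)..θ, K (b + y * I) * FF lam c γ m r₀ T (b + y * I)‖ ≤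
      C1 / T := by
    have h0 : (∫ y in (-Real.pi)..θ, K (b + y * I) * FF lam c γ m r₀ T (b + y * I)) =
        -∫ y in (-Real.pi)..θ, K (b + y * I) * Rr m r₀ L (ww γ T (b + y * I)) := by
      rw [← intervalIntegral.integral_neg]
      refine intervalIntegral.integral_congr fun y hy => ?_
      rw [uIcc_of_le (by linarith)] at hy
      have hzr : ((b : ℂ) + y * I).re = b := by simp
      have hzi : ((b : ℂ) + y * I).im = y := by simp
      obtain ⟨d1, d2, d3, d4⟩ := dom hη hγ hT (z := b + y * I) (by rw [hzr]; linarith)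
        (by rw [hzr]) (by rw [hzi]; exact hy.1) (by rw [hzi]; exact hy.2)
      have hre : (ww γ T (b + y * I)).re = 2 := by
        rw [ww_re, hzr, hb]
        field_simp
      have h5 := hL2 _ hre d3 d4
      have h6 : log (ww γ T (b + y * I)) = ell γ (b + y * I) - Real.log T := by
        have h1 : ww γ T (b + y * I) = ((T⁻¹ : ℝ) : ℂ) * (b + y * I - γ * I) := by
          unfold ww
          push_cast
          field_simp
        have h2 : (b : ℂ) + y * I - γ * I ≠ 0 := by
          intro h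
          have := congrArg Complex.re h
          simp at this
          linarith
        unfold ell
        rw [h1, Complex.log_ofReal_mul (by positivity) h2, Real.log_inv]
        push_cast
        ring
      have h7 : FF lam c γ m r₀ T (b + y * I) = -Rr m r₀ L (ww γ T (b + y * I)) := by
        unfold FF Rr
        rw [h6]
        linear_combination -h5
      simp only [h7]
      ring
    rw [h0, norm_neg]
    exact hleft T hT
  -- the sum
  have hii := admF.vint
  have hsub1 : IntervalIntegrable (fun y : ℝ => K (b + y * I) * FF lam c γ m r₀ T (b + y * I))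
      volume (-Real.pi) θ := hii.mono_set (by
        rw [uIcc_of_le (by linarith), uIcc_of_le (by linarith)]
        exact Icc_subset_Icc le_rfl hθ3)
  have hsub2 : IntervalIntegrable (fun y : ℝ => K (b + y * I) * FF lam c γ m r₀ T (b + y * I))
      volume θ Real.pi := hii.mono_set (by
        rw [uIcc_of_le (by linarith), uIcc_of_le (by linarith)]
        exact Icc_subset_Icc (by linarith) le_rfl)
  have E4 := intervalIntegral.integral_add_adjacent_intervals hsub1 hsub2
  have hn2 : ‖(2 * Real.pi : ℂ)⁻¹‖ = (2 * Real.pi)⁻¹ := by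
    rw [norm_inv, norm_mul, Complex.norm_real, Real.norm_eq_abs, abs_of_pos Real.pi_pos]
    norm_num
  have hpi3 := Real.pi_gt_three
  have hpt : |Real.pi - θ| ≤ 2 * Real.pi := by
    rw [abs_of_nonneg (by linarith)]; linarith
  have E5 : ‖V b (FF lam c γ m r₀ T)‖ ≤ C1 / T + Q * (2 / κ ^ 2) / T := by
    unfold V
    rw [← E4, norm_mul, hn2, inv_mul_le_iff₀ (by positivity)]
    refine (norm_add_le _ _).trans ?_
    have hx : 0 ≤ C1 / T := by positivity
    have hy : 0 ≤ Q * (2 / κ ^ 2) / T := by positivity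
    have h1 : C1 / T ≤ 2 * Real.pi * (C1 / T) := by nlinarith
    have h2 : Q * (2 / κ ^ 2) / T * |Real.pi - θ| ≤ Q * (2 / κ ^ 2) / T * (2 * Real.pi) :=
      mul_le_mul_of_nonneg_left hpt hy
    calc _ ≤ C1 / T + Q * (2 / κ ^ 2) / T * |Real.pi - θ| := add_le_add E3 E2
      _ ≤ 2 * Real.pi * (C1 / T) + Q * (2 / κ ^ 2) / T * (2 * Real.pi) := add_le_add h1 h2
      _ = _ := by ring
  have E6 : ‖cmean lam c γ T - (m * Real.log T - m * J 1 (ell γ) - r₀)‖ ≤
      (C1 + Q * (2 / κ ^ 2) + Q) / T := by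
    rw [← hJ]
    unfold J
    refine (norm_add_le _ _).trans ((add_le_add E5 E1).trans (le_of_eq ?_))
    ring
  exact E6

end Pool.Agent.W187.UR
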