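import Pool.Agent.H21.L.R_seed8.W187.UR.BelC
import Pool.Agent.H21.L.R_seed8.W187.UR.RefC
import Pool.Agent.H21.L.R_seed8.W351.UR.Kap
import Pool.Agent.H21.L.R_seed8.W189.NF.Main

/-! Rotated Mittag-Leffler sums of elliptic curves over number fields: the order and the leading
coefficient without any hypothesis on the zeros. -/

set_option autoImplicit false

namespace Pool.Agent.W187.UR

open Filter Topology Set
open Pool.Agent.W189.ML Pool.Agent.W189.LC Pool.Agent.W189.NF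

/-- `Λ_γ = ∫_0^∞ (e^{-t} - e^{iγt} / Γ(1 + t)) dt / t` -/
noncomputable def Lam (γ : ℝ) : ℂ := ∫ t in Ioi (0 : ℝ),
  (Complex.exp (-(t : ℂ)) - Complex.exp ((γ * t : ℝ) * Complex.I) * ((Real.Gamma (1 + t))⁻¹ : ℝ)) / t

theorem Lam_eq (γ : ℝ) : J 1 (fun z => Complex.log (z - γ * Complex.I)) = Lam γ :=
  Pool.Agent.W351.UR.J_logr γ

theorem cmean_neg {ι : Type} (lam c : ι → ℝ) (γ T : ℝ) :
    cmean lam (fun i => -c i) γ T = -cmean lam c γ T := by
  unfold cmean
  rw [← tsum_neg]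
  refine tsum_congr fun i => ?_
  push_cast
  ring

/-- **the abstract theorem for the rotated mean** -/
theorem mdata_rot {ι : Type} [Countable ι] {lam c : ι → ℝ} {Φ : ℂ → ℂ} (D : MData lam c Φ)
    {m : ℤ} (hm : meromorphicOrderAt Φ 0 = m) {γ : ℝ} (hγ : Real.pi / 2 < γ) :
    ∃ (r₀ : ℂ) (C T₀ : ℝ), Complex.exp r₀ = meromorphicTrailingCoeffAt Φ 0 ∧
      r₀.im = -Real.pi *
        ((∑ᶠ x ∈ Ioc (0 : ℝ) 1, (meromorphicOrderAt Φ (x : ℂ)).untop₀ : ℤ) : ℝ) ∧
      0 ≤ C ∧ 1 ≤ T₀ ∧ ∀ T ≥ T₀,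
      ‖-cmean lam c γ T - (m * (Real.log T - Lam γ) - r₀)‖ ≤ C / T := by
  obtain ⟨η, B, L, r₀, hL, hL2, hr, hi⟩ := belc facc Φ (ser lam c) D.mero
    (fun x hx => D.order_ne_top hx) (fun w hw => D.ser_diff hw) D.eq
    (fun x _ => ser_real lam c x) m hm
  obtain ⟨C, T₀, hC, hT₀, h⟩ := refc lam (fun i => -c i) D.sdata γ hγ m r₀ L η B hL (by
    intro w h1 h2 h3
    rw [ser_neg, neg_neg]
    exact hL2 w h1 h2 h3)
  refine ⟨r₀, C, T₀, hr, hi, hC, hT₀, fun T hT => ?_⟩
  have h1 := h T hT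
  rw [cmean_neg, Lam_eq] at h1
  refine le_trans (le_of_eq ?_) h1
  congr 1
  ring

open IsDedekindDomain NumberField
open Pool.Agent.H921R2.TatePole (nm two_le_nm nm_summable)

variable {K : Type} [Field K] [NumberField K]

/-- `- (α_v^k + β_v^k) q_v^{ikγ/T} / (k q_v^k Γ(1 + k log q_v / T))`, `k = x.2 + 1`. -/
noncomputable def rTerm (E : WeierstrassCurve K) (γ T : ℝ) (x : HeightOneSpectrum (𝓞 K) × ℕ) : ℂ :=
  (bsTerm E T x : ℂ) * Complex.exp
    ((γ * ((x.2 + 1) * Real.log ((Ideal.absNorm x.1.asIdeal : ℕ) : ℝ) / T) : ℝ) * Complex.I)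

/-- the rotated smoothed logarithm of the Birch and Swinnerton-Dyer product -/
noncomputable def rSum (E : WeierstrassCurve K) (γ T : ℝ) : ℂ := ∑' x, rTerm E γ T x

theorem norm_rTerm (E : WeierstrassCurve K) (γ T : ℝ) (x : HeightOneSpectrum (𝓞 K) × ℕ) :
    ‖rTerm E γ T x‖ = |bsTerm E T x| := by
  unfold rTerm
  rw [norm_mul, Complex.norm_exp_ofReal_mul_I, mul_one, Complex.norm_real, Real.norm_eq_abs]

theorem rSum_eq (E : WeierstrassCurve K) (γ T : ℝ) : rSum E γ T =
    -cmean (fr fun v : HeightOneSpectrum (𝓞 K) => (nm v : ℝ)) (cf (fun v => (nm v : ℝ))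
      (fun v => ((aV E v : ℤ) : ℝ)) (fun v => ((eV E v : ℤ) : ℝ))) γ T := by
  unfold rSum cmean
  rw [← tsum_neg]
  refine tsum_congr fun x => ?_
  unfold rTerm
  rw [bsTerm_eq]
  have h1 : ((x.2 + 1 : ℝ) * Real.log ((Ideal.absNorm x.1.asIdeal : ℕ) : ℝ) / T) =
      fr (fun v : HeightOneSpectrum (𝓞 K) => (nm v : ℝ)) x / T := rfl
  rw [h1]
  unfold om
  push_cast
  rw [div_eq_mul_inv]
  ring

/-- the number of real zeros `> 1` minus the number of real poles `> 1`, with multiplicities -/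
noncomputable def excess (F : ℂ → ℂ) : ℤ :=
  ∑ᶠ σ ∈ Ioi (1 : ℝ), (meromorphicOrderAt F (σ : ℂ)).untop₀

theorem excess_eq {F : ℂ → ℂ} (hr : ∀ σ : ℝ, 2 < σ → meromorphicOrderAt F (σ : ℂ) = 0) :
    (∑ᶠ x ∈ Ioc (0 : ℝ) 1, (meromorphicOrderAt (fun w => F (1 + w)) (x : ℂ)).untop₀) =
      excess F := by
  unfold excess
  have h1 : (∑ᶠ x ∈ Ioc (0 : ℝ) 1, (meromorphicOrderAt (fun w => F (1 + w)) (x : ℂ)).untop₀) =
      ∑ᶠ x ∈ Ioc (0 : ℝ) 1, (meromorphicOrderAt F ((1 + x : ℝ) : ℂ)).untop₀ := by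
    refine finsum_mem_congr rfl fun x _ => ?_
    rw [order_shift]
  have h2 : (∑ᶠ σ ∈ Ioi (1 : ℝ), (meromorphicOrderAt F (σ : ℂ)).untop₀) =
      ∑ᶠ σ ∈ Ioc (1 : ℝ) 2, (meromorphicOrderAt F (σ : ℂ)).untop₀ := by
    refine finsum_mem_inter_support_eq' _ _ _ fun σ hσ => ?_
    rw [Function.mem_support] at hσ
    constructor
    · intro h
      refine ⟨h, ?_⟩
      by_contra h3
      push Not at h3
      rw [hr σ h3] at hσ
      simp at hσ
    · exact fun h => h.1
  rw [h1, h2]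
  have h3 : Ioc (1 : ℝ) 2 = (fun x : ℝ => 1 + x) '' Ioc (0 : ℝ) 1 := by
    rw [Set.image_const_add_Ioc]
    norm_num
  rw [h3, finsum_mem_image ((add_right_injective (1 : ℝ)).injOn)]

/-- **the rotated law over number fields** -/
theorem nf_rot {E : WeierstrassCurve K} {F : ℂ → ℂ} (hF : IsCont E F) {γ : ℝ}
    (hγ : Real.pi / 2 < γ) :
    ∃ (m : ℤ) (l : ℝ), meromorphicOrderAt F 1 = m ∧ meromorphicTrailingCoeffAt F 1 = l ∧ l ≠ 0 ∧
      (fun T : ℝ => rSum E γ T - (m * (Real.log T - Lam γ) - Real.log |l| +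
        Real.pi * excess F * Complex.I)) =O[atTop] (fun T : ℝ => 1 / T) ∧
      Tendsto (fun T : ℝ => Complex.exp (rSum E γ T) / (T : ℂ) ^ m) atTop
        (𝓝 (Complex.exp (-(m * Lam γ)) / l)) := by
  have E' := nfEP E
  have D := E'.mdata hF.mero hF.prod
  have htop := E'.order_ne_top hF.mero hF.prod (x := 1) ⟨le_rfl, by norm_num⟩
  rw [Complex.ofReal_one] at htop
  obtain ⟨m, hm⟩ := WithTop.ne_top_iff_exists.1 htop
  obtain ⟨r₀, C, T₀, hr, hi, hC, hT₀, h⟩ := mdata_rot D (m := m)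
    (by rw [order_shift0]; exact hm.symm) hγ
  rw [coeff_shift0] at hr
  rw [excess_eq fun σ hσ => E'.order_right hF.mero hF.prod hσ] at hi
  -- the coefficient is real
  set l : ℂ := meromorphicTrailingCoeffAt F 1 with hl
  have hl0 : l ≠ 0 := by rw [← hr]; exact Complex.exp_ne_zero _
  have hlr : l = (((-1 : ℝ) ^ (excess F) * Real.exp r₀.re : ℝ) : ℂ) := by
    have h1 : r₀ = (r₀.re : ℂ) + (excess F : ℂ) * (-(Real.pi * Complex.I)) := by
      apply Complex.ext
      · simp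
      · rw [hi]; simp; ring
    rw [← hr]
    nth_rewrite 1 [h1]
    rw [Complex.exp_add, Complex.exp_int_mul, Complex.exp_neg, Complex.exp_pi_mul_I]
    push_cast
    norm_num
    ring
  have hlre : l = ((l.re : ℝ) : ℂ) := by
    rw [hlr, Complex.ofReal_re]
  have hlabs : Real.log |l.re| = r₀.re := by
    have h1 : |l.re| = Real.exp r₀.re := by
      rw [hlr, Complex.ofReal_re, abs_mul, Real.abs_exp]
      have : |(-1 : ℝ) ^ (excess F)| = 1 := by
        rw [abs_zpow]; simp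
      rw [this, one_mul]
    rw [h1, Real.log_exp]
  have hlre0 : l.re ≠ 0 := by
    intro h1
    rw [h1, Complex.ofReal_zero] at hlre
    exact hl0 hlre
  have hr₀ : -r₀ = -(Real.log |l.re| : ℂ) + Real.pi * excess F * Complex.I := by
    rw [hlabs]
    apply Complex.ext
    · simp
    · rw [Complex.neg_im, hi]; simp
  have hO : (fun T : ℝ => rSum E γ T - (m * (Real.log T - Lam γ) - r₀)) =O[atTop]
      (fun T : ℝ => 1 / T) := by
    refine Asymptotics.IsBigO.of_bound C ?_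
    filter_upwards [eventually_ge_atTop T₀] with T hT
    have hT1 : 0 < T := by linarith
    have h5 := h T hT
    rw [rSum_eq, Real.norm_eq_abs, abs_of_pos (by positivity : 0 < 1 / T), mul_one_div]
    exact h5
  refine ⟨m, l.re, hm.symm, hlre, hlre0, ?_, ?_⟩
  · refine hO.congr_left fun T => ?_
    linear_combination (-1 : ℂ) * hr₀
  · -- the product form
    have h1 : Tendsto (fun T : ℝ => rSum E γ T - (m * (Real.log T - Lam γ) - r₀)) atTop (𝓝 0) := by
      refine hO.trans_tendsto ?_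
      exact tendsto_const_nhds.div_atTop tendsto_id
    have h2 : Tendsto (fun T : ℝ => Complex.exp (rSum E γ T - (m * (Real.log T - Lam γ) - r₀)) *
        (Complex.exp (-(m * Lam γ)) / l)) atTop (𝓝 (1 * (Complex.exp (-(m * Lam γ)) / l))) := by
      refine Tendsto.mul_const _ ?_
      have := (Complex.continuous_exp.tendsto 0).comp h1
      simpa [Function.comp_def] using this
    rw [one_mul] at h2
    rw [← hlre]
    refine h2.congr' ?_
    filter_upwards [eventually_gt_atTop 0] with T hT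
    have hTc : (T : ℂ) ≠ 0 := by exact_mod_cast hT.ne'
    have h3 : (T : ℂ) ^ m = Complex.exp (m * Real.log T) := by
      rw [Complex.exp_int_mul, ← Complex.ofReal_exp, Real.exp_log hT]
    rw [h3, ← hr, ← Complex.exp_sub, ← Complex.exp_sub, ← Complex.exp_add]
    congr 1
    ring

/-- **the equivalence** -/
theorem nf_iff {E : WeierstrassCurve K} {F : ℂ → ℂ} (hF : IsCont E F) {γ : ℝ}
    (hγ : Real.pi / 2 < γ) (r : ℕ) {B : ℝ} (hB : B ≠ 0) :
    (meromorphicOrderAt F 1 = ((r : ℤ) : WithTop ℤ) ∧ meromorphicTrailingCoeffAt F 1 = B) ↔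
    Tendsto (fun T : ℝ => Complex.exp (rSum E γ T) / (T : ℂ) ^ r) atTop
      (𝓝 (Complex.exp (-(r * Lam γ)) / B)) := by
  obtain ⟨m, l, hm, hl, hl0, -, h⟩ := nf_rot hF hγ
  constructor
  · rintro ⟨h1, h2⟩
    rw [hm] at h1
    have h3 : m = (r : ℤ) := by exact_mod_cast h1
    rw [hl] at h2
    have h4 : l = B := by exact_mod_cast h2
    subst h3
    rw [h4] at h
    simpa using h
  · intro h1
    have hlc : (l : ℂ) ≠ 0 := by exact_mod_cast hl0
    have hBc : (B : ℂ) ≠ 0 := by exact_mod_cast hB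
    set c₁ : ℂ := Complex.exp (-(m * Lam γ)) / l with hc₁
    set c₀ : ℂ := Complex.exp (-(r * Lam γ)) / B with hc₀
    have hc₁0 : c₁ ≠ 0 := div_ne_zero (Complex.exp_ne_zero _) hlc
    have hc₀0 : c₀ ≠ 0 := div_ne_zero (Complex.exp_ne_zero _) hBc
    -- the quotient
    have h2 : Tendsto (fun T : ℝ => (T : ℂ) ^ (m - r)) atTop (𝓝 (c₀ / c₁)) := by
      refine (h1.div h hc₁0).congr' ?_
      filter_upwards [eventually_gt_atTop 0] with T hT
      have hTc : (T : ℂ) ≠ 0 := by exact_mod_cast hT.ne'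
      have h3 := Complex.exp_ne_zero (rSum E γ T)
      rw [zpow_sub₀ hTc, zpow_natCast]
      have h4 : (T : ℂ) ^ m ≠ 0 := zpow_ne_zero _ hTc
      have h5 : (T : ℂ) ^ r ≠ 0 := pow_ne_zero _ hTc
      simp only [Pi.div_apply]
      field_simp
    have h3 : Tendsto (fun T : ℝ => T ^ (m - r)) atTop (𝓝 ‖c₀ / c₁‖) := by
      refine h2.norm.congr' ?_
      filter_upwards [eventually_gt_atTop 0] with T hT
      rw [norm_zpow, Complex.norm_real, Real.norm_eq_abs, abs_of_pos hT]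
    have h4 : m - r = 0 := by
      rcases lt_trichotomy (m - r) 0 with h5 | h5 | h5
      · exfalso
        have h6 : Tendsto (fun T : ℝ => T ^ (m - r)) atTop (𝓝 0) := tendsto_zpow_atTop_zero h5
        have h7 := tendsto_nhds_unique h3 h6
        rw [norm_eq_zero] at h7
        exact div_ne_zero hc₀0 hc₁0 h7
      · exact h5
      · exfalso
        have h6 : Tendsto (fun T : ℝ => T ^ (m - r)) atTop atTop := by
          obtain ⟨n, hn⟩ := Int.eq_ofNat_of_zero_le h5.le
          rw [hn]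
          simp only [zpow_natCast]
          refine tendsto_pow_atTop ?_
          intro h0
          rw [h0] at hn
          rw [hn] at h5
          exact absurd h5 (by simp)
        exact not_tendsto_nhds_of_tendsto_atTop h6 _ h3
    have h5 : m = (r : ℤ) := by linarith
    subst h5
    have h6 : c₀ = c₁ := by
      refine tendsto_nhds_unique h1 ?_
      simpa using h
    refine ⟨hm, ?_⟩
    rw [hl]
    rw [hc₀, hc₁] at h6
    have h7 := Complex.exp_ne_zero (-((r : ℂ) * Lam γ))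
    have h8 : (((r : ℤ) : ℂ)) = (r : ℂ) := by push_cast; rfl
    rw [h8] at h6
    rw [div_eq_div_iff hBc hlc] at h6
    exact mul_left_cancel₀ h7 (by linear_combination h6)

end Pool.Agent.W187.UR
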