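import Pool.Agent.H21.L.R_seed8.W392.UR.Fac

/-! Splitting off all the zeros and poles on the segment, with the trailing coefficient itself. The
proof is the one of helper392 (`Pool.Agent.W392.UR.Fac`). -/

set_option autoImplicit false

namespace Pool.Agent.W187.UR

open Complex MeasureTheory Filter Topology Set
open Pool.Agent.W189.ML Pool.Agent.W189.LC Pool.Agent.W392.UR

/-- splitting off all the zeros and poles on the segment -/
def S_FACC : Prop := ∀ Φ g : ℂ → ℂ,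
  (∀ x ∈ Icc (0 : ℝ) 2, MeromorphicAt Φ (x : ℂ)) →
  (∀ x ∈ Icc (0 : ℝ) 2, meromorphicOrderAt Φ (x : ℂ) ≠ ⊤) →
  (∀ w : ℂ, 1 < w.re → AnalyticAt ℂ g w) →
  (∀ w : ℂ, 1 < w.re → Φ w = exp (g w)) →
  (∀ x : ℝ, 1 < x → (g x).im = 0) →
  ∀ m : ℤ, meromorphicOrderAt Φ 0 = m →
  ∃ (Z : Finset ℝ) (n : ℝ → ℤ) (Q : ℂ → ℂ), (∀ x ∈ Z, 0 < x ∧ x ≤ 1) ∧
    (∀ x ∈ Icc (0 : ℝ) 2, AnalyticAt ℂ Q (x : ℂ)) ∧
    (∀ x ∈ Icc (0 : ℝ) 2, (Q (x : ℂ)).im = 0 ∧ 0 < (Q (x : ℂ)).re) ∧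
    (∀ᶠ w in 𝓝 (2 : ℂ), exp (g w) = w ^ m * (∏ x ∈ Z, (w - (x : ℂ)) ^ (n x)) * Q w) ∧
    meromorphicTrailingCoeffAt Φ 0 = (∏ x ∈ Z, ((0 : ℂ) - (x : ℂ)) ^ (n x)) * Q 0 ∧
    (∑ x ∈ Z, n x) = ∑ᶠ x ∈ Ioc (0 : ℝ) 1, (meromorphicOrderAt Φ (x : ℂ)).untop₀

theorem facc : S_FACC := by
  classical
  intro Φ g hmero htop hga heq him m hm
  -- the right side
  have hopen : IsOpen {z : ℂ | 1 < z.re} := isOpen_lt continuous_const Complex.continuous_re
  have hnear : ∀ w : ℂ, 1 < w.re → Φ =ᶠ[𝓝 w] fun z => exp (g z) := by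
    intro w hw
    filter_upwards [hopen.mem_nhds hw] with z hz
    exact heq z hz
  have hΦa : ∀ w : ℂ, 1 < w.re → AnalyticAt ℂ Φ w := fun w hw =>
    ((hga w hw).cexp).congr (hnear w hw).symm
  have hΦ0 : ∀ w : ℂ, 1 < w.re → Φ w ≠ 0 := by
    intro w hw
    rw [heq w hw]
    exact Complex.exp_ne_zero _
  have hordr : ∀ w : ℂ, 1 < w.re → meromorphicOrderAt Φ w = 0 := by
    intro w hw
    rw [(hΦa w hw).meromorphicOrderAt_eq, (hΦa w hw).analyticOrderAt_eq_zero.2 (hΦ0 w hw)]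
    rfl
  -- the zeros
  have hfin : {x : ℝ | x ∈ Icc (0 : ℝ) 2 ∧ meromorphicOrderAt Φ (x : ℂ) ≠ 0}.Finite := by
    set U : Set ℂ := (fun x : ℝ => (x : ℂ)) '' Icc 0 2 with hU
    have hmU : MeromorphicOn Φ U := by
      rintro _ ⟨y, hy, rfl⟩
      exact hmero y hy
    have hcp : IsCompact U := isCompact_Icc.image (by fun_prop)
    have hfin := (MeromorphicOn.divisor Φ U).finiteSupport hcp
    refine (hfin.preimage (f := fun x : ℝ => (x : ℂ)) (Complex.ofReal_injective.injOn)).subset ?_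
    rintro x ⟨hx, hx0⟩
    have hxU : (x : ℂ) ∈ U := ⟨x, hx, rfl⟩
    simp only [Set.mem_preimage, Function.mem_support]
    rw [MeromorphicOn.divisor_apply hmU hxU]
    have := htop x hx
    intro h
    rw [WithTop.untop₀_eq_zero] at h
    rcases h with h | h
    · exact hx0 h
    · exact this h
  have hfin2 : {x : ℝ | x ∈ Ioc (0 : ℝ) 1 ∧ meromorphicOrderAt Φ (x : ℂ) ≠ 0}.Finite :=
    hfin.subset fun x hx => ⟨⟨hx.1.1.le, hx.1.2.trans (by norm_num)⟩, hx.2⟩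
  set Z : Finset ℝ := hfin2.toFinset with hZ
  have hZm : ∀ x, x ∈ Z ↔ x ∈ Ioc (0 : ℝ) 1 ∧ meromorphicOrderAt Φ (x : ℂ) ≠ 0 := fun x =>
    hfin2.mem_toFinset
  set n : ℝ → ℤ := fun x => (meromorphicOrderAt Φ (x : ℂ)).untop₀ with hn
  have hnx : ∀ x ∈ Icc (0 : ℝ) 2, meromorphicOrderAt Φ (x : ℂ) = (n x : WithTop ℤ) := fun x hx =>
    (WithTop.coe_untop₀_of_ne_top (htop x hx)).symm
  have h0Z : (0 : ℝ) ∉ Z := fun h => lt_irrefl _ ((hZm 0).1 h).1.1
  have hn0 : n 0 = m := by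
    have h1 := hnx 0 ⟨le_rfl, by norm_num⟩
    rw [Complex.ofReal_zero, hm] at h1
    exact_mod_cast h1.symm
  set A : Finset ℝ := insert 0 Z with hA
  set P : ℂ → ℂ := fun w => ∏ x ∈ A, (w - (x : ℂ)) ^ (-n x) with hP
  set P' : ℂ → ℂ := fun w => ∏ x ∈ A, (w - (x : ℂ)) ^ (n x) with hP'
  have hPP : ∀ w : ℂ, (∀ x ∈ A, w ≠ (x : ℂ)) → P' w * P w = 1 := by
    intro w hw
    rw [hP, hP']
    simp only
    rw [← Finset.prod_mul_distrib]
    refine Finset.prod_eq_one fun x hx => ?_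
    rw [← zpow_add₀ (sub_ne_zero.2 (hw x hx))]
    simp
  have hA1 : ∀ x ∈ A, 0 ≤ x ∧ x ≤ 1 := by
    intro x hx
    rw [hA, Finset.mem_insert] at hx
    rcases hx with rfl | hx
    · exact ⟨le_rfl, zero_le_one⟩
    · have := ((hZm x).1 hx).1
      exact ⟨this.1.le, this.2⟩
  have hPa : ∀ y : ℝ, y ∉ A → AnalyticAt ℂ P (y : ℂ) := by
    intro y hy
    rw [hP]
    refine Finset.analyticAt_fun_prod _ fun x hx => ?_
    refine AnalyticAt.zpow (by fun_prop) ?_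
    rw [sub_ne_zero]
    intro h
    have : y = x := by exact_mod_cast h
    exact hy (this ▸ hx)
  -- the quotient
  set U : Set ℂ := {z | MeromorphicAt Φ z} with hU
  set g0 : ℂ → ℂ := fun w => P w * Φ w with hg0
  have hPm : ∀ z : ℂ, MeromorphicAt P z := by
    intro z
    rw [hP]
    refine MeromorphicAt.fun_prod fun x _ => ?_
    fun_prop
  have hgm : MeromorphicOn g0 U := fun z hz' => (hPm z).mul hz'
  have hmem : ∀ x ∈ Icc (0 : ℝ) 2, (x : ℂ) ∈ U := fun x hx => hmero x hx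
  set Q : ℂ → ℂ := toMeromorphicNFOn g0 U with hQ
  have hNF : MeromorphicNFOn Q U := meromorphicNFOn_toMeromorphicNFOn g0 U
  have hord : ∀ x ∈ Icc (0 : ℝ) 2, meromorphicOrderAt Q (x : ℂ) = 0 := by
    intro x hx
    rw [hQ, meromorphicOrderAt_toMeromorphicNFOn hgm (hmem x hx), hg0]
    have h4 : meromorphicOrderAt (fun w => P w * Φ w) (x : ℂ) =
        meromorphicOrderAt P (x : ℂ) + meromorphicOrderAt Φ (x : ℂ) :=
      meromorphicOrderAt_mul (hPm x) (hmem x hx)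
    rw [h4, hP, (order_prod A (fun x => -n x) x).2]
    by_cases hxA : x ∈ A
    · rw [if_pos hxA, hnx x hx]
      norm_cast
      simp
    · rw [if_neg hxA]
      have h5 : meromorphicOrderAt Φ (x : ℂ) = 0 := by
        rcases le_or_gt x 1 with h | h
        · by_contra hne
          apply hxA
          rw [hA, Finset.mem_insert]
          rcases hx.1.eq_or_lt with h6 | h6
          · exact Or.inl h6.symm
          · exact Or.inr ((hZm x).2 ⟨⟨h6, h⟩, hne⟩)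
        · exact hordr x (by simpa using h)
      rw [h5]
      simp
  have hQa : ∀ x ∈ Icc (0 : ℝ) 2, AnalyticAt ℂ Q (x : ℂ) := fun x hx =>
    (hNF (hmem x hx)).meromorphicOrderAt_nonneg_iff_analyticAt.1 (hord x hx).ge
  have hQ0 : ∀ x ∈ Icc (0 : ℝ) 2, Q (x : ℂ) ≠ 0 := fun x hx =>
    (hNF (hmem x hx)).meromorphicOrderAt_eq_zero_iff.1 (hord x hx)
  have hQne : ∀ x ∈ Icc (0 : ℝ) 2, Q =ᶠ[𝓝[≠] (x : ℂ)] g0 := fun x hx =>
    hgm.toMeromorphicNFOn_eq_self_on_nhdsNE (hmem x hx)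
  have hxA : ∀ x : ℝ, 1 < x → x ∉ A := fun x hx h => absurd (hA1 x h).2 (not_le.2 hx)
  -- on `(1, 2]` the functions agree
  have hQg : ∀ x ∈ Icc (0 : ℝ) 2, 1 < x → Q =ᶠ[𝓝 (x : ℂ)] g0 := by
    intro x hx hx1
    have h6 : AnalyticAt ℂ g0 (x : ℂ) := (hPa x (hxA x hx1)).mul (hΦa x (by simpa using hx1))
    exact ((hQa x hx).continuousAt.eventuallyEq_nhds_iff_eventuallyEq_nhdsNE h6.continuousAt).1
      (hQne x hx)
  have hval : ∀ x ∈ Icc (0 : ℝ) 2, 1 < x → Q (x : ℂ) =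
      (((∏ y ∈ A, (x - y) ^ (-n y)) * Real.exp (g x).re : ℝ) : ℂ) := by
    intro x hx hx1
    rw [(hQg x hx hx1).eq_of_nhds, hg0]
    simp only
    rw [heq x (by simpa using hx1)]
    have h6 : g x = ((g x).re : ℂ) := by
      apply Complex.ext <;> simp [him x hx1]
    rw [h6, ← Complex.ofReal_exp, hP]
    push_cast
    simp
  -- `Q` is real on the segment
  have hreal : ∀ x ∈ Icc (0 : ℝ) 2, (Q (x : ℂ)).im = 0 := by
    have h6 : AnalyticOnNhd ℝ (fun x : ℝ => (Q (x : ℂ)).im) (Icc 0 2) := by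
      intro x hx
      have h7 : AnalyticAt ℝ Q (x : ℂ) := (hQa x hx).restrictScalars
      have h8 : AnalyticAt ℝ (fun x : ℝ => (x : ℂ)) x := Complex.ofRealCLM.analyticAt x
      have h9 : AnalyticAt ℝ (fun x : ℝ => Q (x : ℂ)) x := AnalyticAt.comp (g := Q) h7 h8
      exact (Complex.imCLM.analyticAt _).comp h9
    have h7 : (fun x : ℝ => (Q (x : ℂ)).im) =ᶠ[𝓝 (3 / 2)] 0 := by
      have h8 : Ioo (1 : ℝ) 2 ∈ 𝓝 (3 / 2 : ℝ) := Ioo_mem_nhds (by norm_num) (by norm_num)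
      filter_upwards [h8] with x hx
      show (Q (x : ℂ)).im = 0
      rw [hval x ⟨by linarith [hx.1], hx.2.le⟩ hx.1, Complex.ofReal_im]
    have h8 := h6.eqOn_zero_of_preconnected_of_eventuallyEq_zero isPreconnected_Icc
      (show (3 / 2 : ℝ) ∈ Icc (0 : ℝ) 2 from ⟨by norm_num, by norm_num⟩) h7
    exact fun x hx => h8 hx
  have h22 : (2 : ℝ) ∈ Icc (0 : ℝ) 2 := ⟨by norm_num, le_rfl⟩
  have hpos2 : 0 < (Q ((2 : ℝ) : ℂ)).re := by
    rw [hval 2 h22 (by norm_num), Complex.ofReal_re]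
    refine mul_pos (Finset.prod_pos fun y hy => ?_) (Real.exp_pos _)
    have : 0 < 2 - y := by linarith [(hA1 y hy).2]
    positivity
  have hpos : ∀ x ∈ Icc (0 : ℝ) 2, 0 < (Q (x : ℂ)).re := by
    intro x hx
    by_contra hneg
    push Not at hneg
    have hc : ContinuousOn (fun x : ℝ => (Q (x : ℂ)).re) (Icc x 2) := by
      intro y hy
      have h7 : ContinuousAt Q (y : ℂ) := (hQa y ⟨hx.1.trans hy.1, hy.2⟩).continuousAt
      have h8 : ContinuousAt (fun x : ℝ => Q (x : ℂ)) y :=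
        ContinuousAt.comp (g := Q) (f := fun x : ℝ => (x : ℂ)) h7 (by fun_prop)
      exact (Complex.continuous_re.continuousAt.comp h8).continuousWithinAt
    obtain ⟨y, hy, hy0⟩ := intermediate_value_Icc hx.2 hc
      (show (0 : ℝ) ∈ Icc _ _ from ⟨hneg, hpos2.le⟩)
    have hyI : y ∈ Icc (0 : ℝ) 2 := ⟨hx.1.trans hy.1, hy.2⟩
    refine hQ0 y hyI ?_
    apply Complex.ext
    · simpa using hy0
    · simpa using hreal y hyI
  have hP'eq : ∀ w : ℂ, P' w = w ^ m * ∏ x ∈ Z, (w - (x : ℂ)) ^ (n x) := by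
    intro w
    rw [hP', hA]
    simp only
    rw [Finset.prod_insert h0Z, Complex.ofReal_zero, sub_zero, hn0]
  refine ⟨Z, n, Q, fun x hx => ((hZm x).1 hx).1, hQa, fun x hx => ⟨hreal x hx, hpos x hx⟩, ?_, ?_⟩
  · have h7 := hQg 2 h22 (by norm_num)
    have h8 := hnear ((2 : ℝ) : ℂ) (by simp)
    have h9 : ∀ᶠ w : ℂ in 𝓝 (((2 : ℝ) : ℂ)), ∀ x ∈ A, w ≠ (x : ℂ) := by
      rw [Finset.eventually_all]
      intro x hx
      refine isOpen_ne.mem_nhds ?_
      intro h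
      have h10 : (2 : ℝ) = x := by exact_mod_cast h
      have := (hA1 x hx).2
      linarith
    have h10 : ((2 : ℝ) : ℂ) = 2 := by norm_num
    rw [h10] at h7 h8 h9
    filter_upwards [h7, h8, h9] with w e1 e2 e3
    rw [e1, hg0, ← hP'eq]
    simp only
    rw [← e2, ← mul_assoc, hPP w e3, one_mul]
  · set G : ℂ → ℂ := fun w => (∏ x ∈ Z, (w - (x : ℂ)) ^ (n x)) * Q w with hG
    have h00 : (0 : ℝ) ∈ Icc (0 : ℝ) 2 := ⟨le_rfl, by norm_num⟩
    have hZne : ∀ x ∈ Z, (0 : ℂ) - (x : ℂ) ≠ 0 := by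
      intro x hx
      rw [zero_sub, neg_ne_zero]
      have := ((hZm x).1 hx).1.1
      exact_mod_cast this.ne'
    have hGa : AnalyticAt ℂ G 0 := by
      have h1 : AnalyticAt ℂ (fun w : ℂ => ∏ x ∈ Z, (w - (x : ℂ)) ^ (n x)) 0 := by
        refine Finset.analyticAt_fun_prod _ fun x hx => ?_
        exact AnalyticAt.zpow (by fun_prop) (hZne x hx)
      have h2 := hQa 0 h00
      rw [Complex.ofReal_zero] at h2
      exact h1.mul h2
    have hQ00 : Q 0 ≠ 0 := by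
      have := hQ0 0 h00
      rwa [Complex.ofReal_zero] at this
    have hG0 : G 0 ≠ 0 := by
      rw [hG]
      refine mul_ne_zero (Finset.prod_ne_zero_iff.2 fun x hx => ?_) hQ00
      exact zpow_ne_zero _ (hZne x hx)
    have htr : meromorphicTrailingCoeffAt Φ 0 = G 0 := by
      refine hGa.meromorphicTrailingCoeffAt_of_ne_zero_of_eq_nhdsNE (n := m) hG0 ?_
      have e0 := hQne 0 h00
      rw [Complex.ofReal_zero] at e0
      have e9 : ∀ᶠ w : ℂ in 𝓝[≠] (0 : ℂ), ∀ x ∈ A, w ≠ (x : ℂ) := by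
        rw [Finset.eventually_all]
        intro x hx
        by_cases hx0 : x = 0
        · rw [hx0, Complex.ofReal_zero]
          exact self_mem_nhdsWithin
        · refine mem_nhdsWithin_of_mem_nhds (isOpen_ne.mem_nhds ?_)
          intro h
          apply hx0
          exact_mod_cast h.symm
      filter_upwards [e0, e9] with w e1 e2
      rw [smul_eq_mul, sub_zero, hG]
      simp only
      rw [← mul_assoc, ← hP'eq, e1, hg0]
      simp only
      rw [← mul_assoc, hPP w e2, one_mul]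
    refine ⟨htr, ?_⟩
    have hsupp : ∀ x : ℝ, x ∈ Z ↔ x ∈ Ioc (0 : ℝ) 1 ∧ n x ≠ 0 := by
      intro x
      rw [hZm x]
      refine and_congr_right fun hx => ?_
      have h1 := hnx x ⟨hx.1.le, by linarith [hx.2]⟩
      rw [h1]
      norm_cast
    have h2 : (∑ᶠ x ∈ Ioc (0 : ℝ) 1, n x) = ∑ x ∈ Z, n x := by
      refine finsum_mem_eq_sum_of_inter_support_eq _ ?_
      ext x
      simp only [Set.mem_inter_iff, Function.mem_support, Finset.mem_coe, hsupp x]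
      tauto
    rw [← h2]

end Pool.Agent.W187.UR
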