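import Pool.Agent.H21.L.R_seed8.W189.ML.Grow

/-! Rotated Mittag-Leffler means: the contour is kept on one side of the real axis, so that zeros and
poles on the real axis do not matter. -/

set_option autoImplicit false

namespace Pool.Agent.W187.UR

open Complex MeasureTheory Filter Topology Set
open scoped Interval
open Pool.Agent.W189.ML

variable {ι : Type} {lam : ι → ℝ} {c : ι → ℝ} {G : ℂ → ℂ}

/-- the rotated mean, complex form -/
noncomputable def cmean (lam c : ι → ℝ) (γ T : ℝ) : ℂ :=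
  ∑' i, (c i : ℂ) * exp ((γ * (lam i / T) : ℝ) * I) * (om (lam i / T) : ℂ)

/-- the rotated mean -/
noncomputable def rmean (lam c : ι → ℝ) (γ T : ℝ) : ℝ :=
  ∑' i, c i * (Real.cos (γ * (lam i / T)) * om (lam i / T))

theorem cmean_eq [Countable ι] (D : SData lam c G) {γ T b : ℝ} (hT : 1 ≤ T) (hb : 2 * T ≤ b) :
    J b (fun z => ser lam c ((z - γ * I) / T)) = cmean lam c γ T ∧
    (cmean lam c γ T).re = rmean lam c γ T := by
  have hT0 : (0 : ℝ) < T := by linarith
  have hTc : (T : ℂ) ≠ 0 := by exact_mod_cast hT0.ne'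
  have hb0 : 0 ≤ b := by linarith
  have hre : ∀ z ∈ HS b, 2 ≤ ((z - γ * I) / T).re := by
    intro z hz
    have : ((z - γ * I) / T).re = z.re / T := by simp
    rw [this, le_div_iff₀ hT0]
    exact hb.trans hz.1
  have h1 := J_hasSum (a := b) hb0 (F := fun i z => (c i : ℂ) * exp (-((z - γ * I) / T * lam i)))
    D.sum
    (fun i => ⟨by fun_prop, |c i| * Real.exp (-(2 * lam i)), 0, by positivity, le_rfl, fun z hz => by
      have := D.term_le (hre z hz) i
      linarith⟩) fun i z hz => D.term_le (hre z hz) i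
  have h2 : ∀ i, J b (fun z => (c i : ℂ) * exp (-((z - γ * I) / T * lam i))) =
      (c i : ℂ) * exp ((γ * (lam i / T) : ℝ) * I) * (om (lam i / T) : ℂ) := by
    intro i
    have e3 : (fun z : ℂ => (c i : ℂ) * exp (-((z - γ * I) / T * lam i))) =
        fun z => ((c i : ℂ) * exp ((γ * (lam i / T) : ℝ) * I)) *
          exp (-(z * ((lam i / T : ℝ) : ℂ))) := by
      funext z
      rw [mul_assoc, ← Complex.exp_add]
      congr 2
      push_cast
      field_simp
      ring
    rw [e3, J_const_mul, J_exp]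
    rfl
  simp only [h2] at h1
  have h3 := h1.tsum_eq
  refine ⟨h3.symm, ?_⟩
  have h4 : (cmean lam c γ T).re = ∑' i, ((c i : ℂ) * exp ((γ * (lam i / T) : ℝ) * I) *
      (om (lam i / T) : ℂ)).re := by
    unfold cmean
    rw [Complex.re_tsum h1.summable]
  rw [h4]
  unfold rmean
  refine tsum_congr fun i => ?_
  rw [Complex.re_mul_ofReal, Complex.re_ofReal_mul, Complex.exp_ofReal_mul_I_re]
  ring

/-- decay of the kernel on a horizontal line -/
theorem dexp_le {κ x : ℝ} (hκ : 0 < κ) (hx : 0 ≤ x) :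
    Real.exp (-(κ * Real.exp x)) * x ≤ 2 / κ ^ 2 * Real.exp (-x) := by
  set t := κ * Real.exp x with ht
  have ht0 : 0 < t := by positivity
  have h1 := Real.quadratic_le_exp_of_nonneg ht0.le
  have h2 : Real.exp (-t) ≤ 2 / t ^ 2 := by
    rw [Real.exp_neg, inv_eq_one_div, div_le_div_iff₀ (Real.exp_pos _) (by positivity)]
    nlinarith
  have h3 : x ≤ Real.exp x := by
    have := Real.add_one_le_exp x
    linarith
  calc Real.exp (-t) * x ≤ (2 / t ^ 2) * Real.exp x := by gcongr
    _ = 2 / κ ^ 2 * Real.exp (-x) := by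
      rw [ht, Real.exp_neg]
      field_simp

/-- Cauchy's theorem for the half strip with the upper boundary at the height `θ` -/
theorem shift {f : ℂ → ℂ} {a b θ : ℝ}
    (h : DifferentiableOn ℂ f ([[a, b]] ×ℂ [[-Real.pi, θ]])) :
    I * (∫ y in (-Real.pi)..θ, f (b + y * I)) = I * (∫ y in (-Real.pi)..θ, f (a + y * I)) +
      (∫ x in a..b, f (x + θ * I)) - ∫ x in a..b, f (x - Real.pi * I) := by
  have h1 := Complex.integral_boundary_rect_eq_zero_of_differentiableOn
    f (a + (-Real.pi : ℝ) * I) (b + θ * I) (by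
      simp only [add_re, ofReal_re, mul_re, I_re, mul_zero, ofReal_im, I_im, mul_one, sub_self,
        add_zero, add_im, mul_im, zero_add]
      exact h)
  simp only [add_re, ofReal_re, mul_re, I_re, mul_zero, ofReal_im, I_im, mul_one, sub_self,
    add_zero, add_im, mul_im, zero_add, smul_eq_mul] at h1
  have h2 : ∀ x : ℝ, (x : ℂ) + ((-Real.pi : ℝ) : ℂ) * I = x - (Real.pi : ℂ) * I := by
    intro x; push_cast; ring
  simp only [h2] at h1
  linear_combination h1

theorem norm_K_neg {κ x y : ℝ} (h : Real.cos y ≤ -κ) :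
    ‖K (x + y * I)‖ ≤ Real.exp (-(κ * Real.exp x)) := by
  rw [norm_K]
  apply Real.exp_le_exp.2
  nlinarith [Real.exp_pos x]

/-- bound for the integral over a horizontal side -/
theorem horiz_le {Ψ : ℂ → ℂ} {a b y κ A : ℝ} (hκ : 0 < κ) (ha : 0 ≤ a) (hab : a ≤ b) (hA : 0 ≤ A)
    (hy : Real.cos y ≤ -κ) (hΨ : ∀ x ∈ Icc a b, ‖Ψ (x + y * I)‖ ≤ A * x) :
    ‖∫ x in a..b, K (x + y * I) * Ψ (x + y * I)‖ ≤ A * (2 / κ ^ 2) := by
  have h1 : ‖∫ x in a..b, K (x + y * I) * Ψ (x + y * I)‖ ≤
      ∫ x in a..b, A * (2 / κ ^ 2) * Real.exp (-x) := by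
    refine intervalIntegral.norm_integral_le_of_norm_le hab ?_ (by
      exact Continuous.intervalIntegrable (by fun_prop) _ _)
    refine ae_of_all _ fun x hx => ?_
    have hx' : x ∈ Icc a b := ⟨hx.1.le, hx.2⟩
    have hx0 : 0 ≤ x := ha.trans hx'.1
    rw [norm_mul]
    calc ‖K (x + y * I)‖ * ‖Ψ (x + y * I)‖ ≤ Real.exp (-(κ * Real.exp x)) * (A * x) :=
          mul_le_mul (norm_K_neg hy) (hΨ x hx') (norm_nonneg _) (Real.exp_pos _).le
      _ = A * (Real.exp (-(κ * Real.exp x)) * x) := by ring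
      _ ≤ A * (2 / κ ^ 2 * Real.exp (-x)) := mul_le_mul_of_nonneg_left (dexp_le hκ hx0) hA
      _ = _ := by ring
  have h2 : ∫ x in a..b, A * (2 / κ ^ 2) * Real.exp (-x) =
      A * (2 / κ ^ 2) * (Real.exp (-a) - Real.exp (-b)) := by
    rw [intervalIntegral.integral_const_mul, intervalIntegral.integral_comp_neg
      (f := Real.exp), integral_exp]
  rw [h2] at h1
  refine h1.trans ?_
  have h3 : Real.exp (-a) ≤ 1 := Real.exp_le_one_iff.2 (by linarith)
  have h4 := Real.exp_pos (-b)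
  have h5 : 0 ≤ A * (2 / κ ^ 2) := by positivity
  nlinarith

end Pool.Agent.W187.UR
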